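import Pool.Agent.Lib.MP_763071_co.Three.Clock

/-!
# MP_763071_co : sequences of blocks

`prec k l r z z'` : `z < z'` or `r z ≤ l z' + k`.  A block is a chain of `2 k` elements with a common
window of size at least `2 k`.  A longest `prec`-sequence of blocks meets every interval `[z 0, z (s-1)]`
given by a chain of `s = 8 k` elements with a common window of size at least `2 k`.
-/

set_option autoImplicit false

namespace Pool.Agent.MP763071.Three

open Pool.Agent.MP763071.KK.BackboneAux

variable {P : Type} [PartialOrder P] {h : ℕ} {ch : ℕ → P} {l r : P → ℕ}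

/-- the relation between blocks -/
def prec (k : ℕ) (l r : P → ℕ) (z z' : P) : Prop := z < z' ∨ r z ≤ l z' + k

/-- a wide window -/
def wide (k : ℕ) (l r : P → ℕ) (z : P) : Prop := l z + 1 + 2 * k ≤ r z

namespace Clk

theorem prec_irrefl (k : ℕ) (z : P) (hz : wide k l r z) : ¬ prec k l r z z := by
  rintro (h1 | h1)
  · exact lt_irrefl _ h1
  · unfold wide at hz; omega

theorem prec_l (H : Clk P h ch l r) (k : ℕ) (z z' : P) (hz : wide k l r z)
    (hzz : prec k l r z z') : l z ≤ l z' := by
  rcases hzz with h1 | h1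
  · exact H.l_mono _ _ h1.le
  · unfold wide at hz; omega

theorem prec_r (H : Clk P h ch l r) (k : ℕ) (z z' : P) (hz' : wide k l r z')
    (hzz : prec k l r z z') : r z ≤ r z' := by
  rcases hzz with h1 | h1
  · exact H.r_mono _ _ h1.le
  · unfold wide at hz'; omega

theorem prec_trans (H : Clk P h ch l r) (k : ℕ) (x y z : P) (hy : wide k l r y)
    (h1 : prec k l r x y) (h2 : prec k l r y z) : prec k l r x z := by
  rcases h1 with h1 | h1
  · rcases h2 with h2 | h2
    · exact Or.inl (h1.trans h2)
    · have h3 := H.r_mono _ _ h1.le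
      exact Or.inr (by omega)
  · have h3 := H.prec_l k y z hy h2
    exact Or.inr (by omega)

end Clk

/-- weak version of `prec` -/
def wprec (k : ℕ) (l r : P → ℕ) (z z' : P) : Prop := z = z' ∨ prec k l r z z'

namespace Clk

theorem wprec_of_le (k : ℕ) (x y : P) (hxy : x ≤ y) : wprec k l r x y := by
  rcases eq_or_lt_of_le hxy with h1 | h1
  · exact Or.inl h1
  · exact Or.inr (Or.inl h1)

theorem wprec_trans (H : Clk P h ch l r) (k : ℕ) (x y z : P) (hy : wide k l r y)
    (h1 : wprec k l r x y) (h2 : wprec k l r y z) : wprec k l r x z := by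
  rcases h1 with rfl | h1
  · exact h2
  · rcases h2 with rfl | h2
    · exact Or.inr h1
    · exact Or.inr (H.prec_trans k x y z hy h1 h2)

theorem prec_of_wprec_prec (H : Clk P h ch l r) (k : ℕ) (x y z : P) (hy : wide k l r y)
    (h1 : wprec k l r x y) (h2 : prec k l r y z) : prec k l r x z := by
  rcases h1 with rfl | h1
  · exact h2
  · exact H.prec_trans k x y z hy h1 h2

theorem prec_of_prec_wprec (H : Clk P h ch l r) (k : ℕ) (x y z : P) (hy : wide k l r y)
    (h1 : prec k l r x y) (h2 : wprec k l r y z) : prec k l r x z := by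
  rcases h2 with rfl | h2
  · exact h1
  · exact H.prec_trans k x y z hy h1 h2

theorem wprec_l (H : Clk P h ch l r) (k : ℕ) (z z' : P) (hz : wide k l r z)
    (hzz : wprec k l r z z') : l z ≤ l z' := by
  rcases hzz with rfl | hzz
  · exact le_rfl
  · exact H.prec_l k z z' hz hzz

theorem wprec_r (H : Clk P h ch l r) (k : ℕ) (z z' : P) (hz' : wide k l r z')
    (hzz : wprec k l r z z') : r z ≤ r z' := by
  rcases hzz with rfl | hzz
  · exact le_rfl
  · exact H.prec_r k z z' hz' hzz

end Clk

theorem SM.le {n : ℕ} {f : ℕ → P} (hf : SM n f) (i j : ℕ) (h1 : i ≤ j) (h2 : j < n) :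
    f i ≤ f j := by
  rcases Nat.eq_or_lt_of_le h1 with h3 | h3
  · rw [h3]
  · exact (hf i j h3 h2).le

/-- a block -/
structure Blk (k : ℕ) (l r : P → ℕ) (b : ℕ → P) : Prop where
  sm : SM (2 * k) b
  win : l (b (2 * k - 1)) + 1 + 2 * k ≤ r (b 0)

theorem Blk.wide (H : Clk P h ch l r) {k : ℕ} {b : ℕ → P} (hb : Blk k l r b) (i : ℕ)
    (hi : i < 2 * k) : wide k l r (b i) := by
  have h1 := H.l_mono _ _ (SM.le hb.sm i (2 * k - 1) (by omega) (by omega))
  have h2 := H.r_mono _ _ (SM.le hb.sm 0 i (by omega) hi)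
  have h3 := hb.win
  unfold Three.wide
  omega

/-- sequences of blocks -/
def BSeq (k : ℕ) (l r : P → ℕ) (s : List (ℕ → P)) : Prop :=
  (∀ b ∈ s, Blk k l r b) ∧ s.Pairwise (fun b b' => prec k l r (b (2 * k - 1)) (b' 0))

theorem BSeq.length_le [Fintype P] (H : Clk P h ch l r) {k : ℕ} (hk : 1 ≤ k) {s : List (ℕ → P)}
    (hs : BSeq k l r s) : s.length ≤ Fintype.card P := by
  classical
  have h1 : (s.map (fun b => b 0)).Nodup := by
    rw [List.Nodup, List.pairwise_map]
    refine List.Pairwise.imp_of_mem ?_ hs.2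
    intro a b ha hb hab heq
    have h2 := (hs.1 a ha).wide H 0 (by omega)
    have h3 := (hs.1 a ha).wide H (2 * k - 1) (by omega)
    have h4 := H.prec_of_wprec_prec k (a 0) (a (2 * k - 1)) (b 0) h3
      (Clk.wprec_of_le k _ _ (SM.le (hs.1 a ha).sm 0 (2 * k - 1) (by omega) (by omega))) hab
    have h5 : a 0 = b 0 := heq
    rw [← h5] at h4
    exact Clk.prec_irrefl k (a 0) h2 h4
  have h2 := h1.length_le_card
  rwa [List.length_map] at h2

/-- a longest sequence of blocks exists -/
theorem exists_longest [Fintype P] (H : Clk P h ch l r) {k : ℕ} (hk : 1 ≤ k) :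
    ∃ s : List (ℕ → P), BSeq k l r s ∧ ∀ s' : List (ℕ → P), BSeq k l r s' →
      s'.length ≤ s.length := by
  classical
  let Q : ℕ → Prop := fun n => ∃ s : List (ℕ → P), BSeq k l r s ∧ s.length = n
  have h0 : Q 0 := ⟨[], ⟨fun b hb => by simp at hb, List.Pairwise.nil⟩, rfl⟩
  obtain ⟨s, hs, hlen⟩ : Q (Nat.findGreatest Q (Fintype.card P)) :=
    Nat.findGreatest_spec (P := Q) (Nat.zero_le _) h0
  refine ⟨s, hs, fun s' hs' => ?_⟩
  rw [hlen]
  exact Nat.le_findGreatest (P := Q) (BSeq.length_le H hk hs') ⟨s', hs', rfl⟩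

/-- the elements of a longest sequence of blocks meet the long wide intervals -/
theorem claim1 (H : Clk P h ch l r) {k : ℕ} (hk : 1 ≤ k) (hT : ¬ T3 P k) (s : List (ℕ → P))
    (hs : BSeq k l r s) (hmax : ∀ s' : List (ℕ → P), BSeq k l r s' → s'.length ≤ s.length)
    (z : ℕ → P) (hz : SM (8 * k) z) (hzw : l (z (8 * k - 1)) + 1 + 2 * k ≤ r (z 0)) :
    ∃ b ∈ s, ∃ i < 2 * k, z 0 ≤ b i ∧ b i ≤ z (8 * k - 1) := by
  classical
  by_contra hno
  push Not at hno
  have hlz : ∀ i < 8 * k, l (z i) ≤ l (z (8 * k - 1)) := fun i hi =>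
    H.l_mono _ _ (SM.le hz i (8 * k - 1) (by omega) (by omega))
  have hrz : ∀ i < 8 * k, r (z 0) ≤ r (z i) := fun i hi =>
    H.r_mono _ _ (SM.le hz 0 i (by omega) hi)
  have hzwide : ∀ i < 8 * k, wide k l r (z i) := by
    intro i hi
    have h1 := hlz i hi
    have h2 := hrz i hi
    unfold wide
    omega
  let low : (ℕ → P) → Prop := fun b => wprec k l r (b (2 * k - 1)) (z (k - 1))
  let high : (ℕ → P) → Prop := fun b => wprec k l r (z (7 * k)) (b 0)
  let nb : ℕ → ℕ → P := fun j i => z (k + 2 * k * j + i)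
  have hnb : ∀ j < 3, Blk k l r (nb j) := by
    intro j hj
    have hj3 : 2 * k * j ≤ 4 * k := by
      have : 2 * k * j ≤ 2 * k * 2 := Nat.mul_le_mul_left _ (by omega)
      omega
    refine ⟨fun a b hab hb => hz _ _ (by omega) (by omega), ?_⟩
    show l (z (k + 2 * k * j + (2 * k - 1))) + 1 + 2 * k ≤ r (z (k + 2 * k * j + 0))
    have h1 := hlz (k + 2 * k * j + (2 * k - 1)) (by omega)
    have h2 := hrz (k + 2 * k * j + 0) (by omega)
    omega
  set A := s.filter (fun b => decide (low b)) with hA
  set A' := s.filter (fun b => !decide (low b)) with hA'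
  set C := A'.filter (fun b => decide (high b)) with hC
  set G := A'.filter (fun b => !decide (high b)) with hG
  have hAmem : ∀ b ∈ A, b ∈ s ∧ low b := by
    intro b hb
    rw [hA, List.mem_filter] at hb
    exact ⟨hb.1, by simpa using hb.2⟩
  have hA'mem : ∀ b ∈ A', b ∈ s ∧ ¬ low b := by
    intro b hb
    rw [hA', List.mem_filter] at hb
    exact ⟨hb.1, by simpa using hb.2⟩
  have hCmem : ∀ b ∈ C, b ∈ s ∧ high b := by
    intro b hb
    rw [hC, List.mem_filter] at hb
    exact ⟨(hA'mem b hb.1).1, by simpa using hb.2⟩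
  have hGmem : ∀ b ∈ G, b ∈ s ∧ ¬ low b ∧ ¬ high b := by
    intro b hb
    rw [hG, List.mem_filter] at hb
    exact ⟨(hA'mem b hb.1).1, (hA'mem b hb.1).2, by simpa using hb.2⟩
  have hlast : ∀ b ∈ s, wide k l r (b (2 * k - 1)) := fun b hb =>
    (hs.1 b hb).wide H (2 * k - 1) (by omega)
  have hfirst : ∀ b ∈ s, wide k l r (b 0) := fun b hb => (hs.1 b hb).wide H 0 (by omega)
  -- the new sequence
  have hnew : BSeq k l r (A ++ ([nb 0, nb 1, nb 2] ++ C)) := by
    constructor
    · intro b hb
      rw [List.mem_append, List.mem_append] at hb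
      rcases hb with hb | hb | hb
      · exact hs.1 b (hAmem b hb).1
      · simp only [List.mem_cons, List.not_mem_nil, or_false] at hb
        rcases hb with rfl | rfl | rfl
        · exact hnb 0 (by omega)
        · exact hnb 1 (by omega)
        · exact hnb 2 (by omega)
      · exact hs.1 b (hCmem b hb).1
    · have hlownb : ∀ b, b ∈ s → low b → ∀ m, k ≤ m → m < 8 * k →
          prec k l r (b (2 * k - 1)) (z m) := by
        intro b hb hlow m h1 h2
        exact H.prec_of_wprec_prec k _ (z (k - 1)) _ (hzwide _ (by omega)) hlow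
          (Or.inl (hz _ _ (by omega) h2))
      have hnbhigh : ∀ b, b ∈ s → high b → ∀ m, m < 7 * k →
          prec k l r (z m) (b 0) := by
        intro b hb hhigh m h1
        exact H.prec_of_prec_wprec k _ (z (7 * k)) _ (hzwide _ (by omega))
          (Or.inl (hz _ _ h1 (by omega))) hhigh
      rw [List.pairwise_append, List.pairwise_append]
      refine ⟨hs.2.sublist List.filter_sublist, ⟨?_, ?_, ?_⟩, ?_⟩
      · have h12 : ∀ i j, i < j → j < 3 → prec k l r (nb i (2 * k - 1)) (nb j 0) := by
          intro i j hij hj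
          refine Or.inl (hz _ _ ?_ ?_)
          · have : 2 * k * (i + 1) ≤ 2 * k * j := Nat.mul_le_mul_left _ hij
            rw [Nat.mul_add, Nat.mul_one] at this
            omega
          · have : 2 * k * j ≤ 2 * k * 2 := Nat.mul_le_mul_left _ (by omega)
            omega
        simp only [List.pairwise_cons, List.mem_cons, List.not_mem_nil, or_false, forall_eq_or_imp,
          forall_eq, IsEmpty.forall_iff, implies_true, List.Pairwise.nil, and_true]
        exact ⟨⟨h12 0 1 (by omega) (by omega), h12 0 2 (by omega) (by omega)⟩,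
          h12 1 2 (by omega) (by omega)⟩
      · exact (hs.2.sublist List.filter_sublist).sublist List.filter_sublist
      · intro a ha c hc
        have hc' := hCmem c hc
        simp only [List.mem_cons, List.not_mem_nil, or_false] at ha
        rcases ha with rfl | rfl | rfl
        · exact hnbhigh c hc'.1 hc'.2 _ (by omega)
        · exact hnbhigh c hc'.1 hc'.2 _ (by omega)
        · exact hnbhigh c hc'.1 hc'.2 _ (by omega)
      · intro a ha c hc
        have ha' := hAmem a ha
        rw [List.mem_append] at hc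
        rcases hc with hc | hc
        · simp only [List.mem_cons, List.not_mem_nil, or_false] at hc
          rcases hc with rfl | rfl | rfl
          · exact hlownb a ha'.1 ha'.2 _ (by omega) (by omega)
          · exact hlownb a ha'.1 ha'.2 _ (by omega) (by omega)
          · exact hlownb a ha'.1 ha'.2 _ (by omega) (by omega)
        · have hc' := hCmem c hc
          exact H.prec_of_prec_wprec k _ (z (7 * k)) _ (hzwide _ (by omega))
            (hlownb a ha'.1 ha'.2 (7 * k) (by omega) (by omega)) hc'.2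
  have hlen := hmax _ hnew
  have hl1 : s.length = A.length + A'.length := by
    rw [hA, hA']
    exact List.length_eq_length_filter_add _
  have hl2 : A'.length = C.length + G.length := by
    rw [hC, hG]
    exact List.length_eq_length_filter_add _
  rw [List.length_append, List.length_append] at hlen
  have hl3 : ([nb 0, nb 1, nb 2] : List (ℕ → P)).length = 3 := rfl
  have hG3 : 3 ≤ G.length := by omega
  have hGp : G.Pairwise (fun b b' => prec k l r (b (2 * k - 1)) (b' 0)) :=
    (hs.2.sublist List.filter_sublist).sublist List.filter_sublist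
  clear_value G
  rcases G with _ | ⟨g1, _ | ⟨g2, _ | ⟨g3, G'⟩⟩⟩
  · simp at hG3
  · simp at hG3
  · simp at hG3
  have m1 := hGmem g1 (by simp)
  have m2 := hGmem g2 (by simp)
  have m3 := hGmem g3 (by simp)
  have p12 : prec k l r (g1 (2 * k - 1)) (g2 0) := by
    rw [List.pairwise_cons] at hGp
    exact hGp.1 g2 (by simp)
  have p23 : prec k l r (g2 (2 * k - 1)) (g3 0) := by
    rw [List.pairwise_cons, List.pairwise_cons] at hGp
    exact hGp.2.1 g3 (by simp)
  have b2 := hs.1 g2 m2.1
  have g2w : ∀ i < 2 * k, wide k l r (g2 i) := fun i hi => b2.wide H i hi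
  have g2le : ∀ i j, i ≤ j → j < 2 * k → wprec k l r (g2 i) (g2 j) := fun i j h1 h2 =>
    Clk.wprec_of_le k _ _ (SM.le b2.sm i j h1 h2)
  have zle : ∀ i j, i ≤ j → j < 8 * k → wprec k l r (z i) (z j) := fun i j h1 h2 =>
    Clk.wprec_of_le k _ _ (SM.le hz i j h1 h2)
  have nlow : ∀ i < 2 * k, ¬ wprec k l r (g2 i) (z (k - 1)) := by
    intro i hi hw
    apply m1.2.1
    exact Or.inr (H.prec_of_prec_wprec k _ (g2 0) _ (g2w 0 (by omega)) p12
      (H.wprec_trans k _ (g2 i) _ (g2w i hi) (g2le 0 i (by omega) hi) hw))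
  have nhigh : ∀ i < 2 * k, ¬ wprec k l r (z (7 * k)) (g2 i) := by
    intro i hi hw
    apply m3.2.2
    exact Or.inr (H.prec_of_wprec_prec k _ (g2 (2 * k - 1)) _ (g2w _ (by omega))
      (H.wprec_trans k _ (g2 i) _ (g2w i hi) hw (g2le i (2 * k - 1) (by omega) (by omega))) p23)
  have nboth : ∀ i < 2 * k, wprec k l r (z 0) (g2 i) → ¬ wprec k l r (g2 i) (z (8 * k - 1)) := by
    intro i hi h1 h2
    have e1 := H.wprec_l k _ _ (g2w i hi) h2
    have e2 := H.wprec_r k _ _ (g2w i hi) h1
    have f1 : z 0 ≤ g2 i := by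
      rcases h1 with h1 | h1 | h1
      · exact h1.le
      · exact h1.le
      · exfalso; omega
    have f2 : g2 i ≤ z (8 * k - 1) := by
      rcases h2 with h2 | h2 | h2
      · exact h2.le
      · exact h2.le
      · exfalso; omega
    exact hno g2 m2.1 i hi f1 f2
  have hwin := b2.win
  by_cases hcase : wprec k l r (z 0) (g2 (k - 1))
  · -- plus case
    have nplus : ∀ i, k - 1 ≤ i → i < 2 * k → ∀ j < 8 * k, ¬ wprec k l r (g2 i) (z j) := by
      intro i h1 h2 j hj hw
      apply nboth (k - 1) (by omega) hcase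
      exact H.wprec_trans k _ (g2 i) _ (g2w i h2) (g2le (k - 1) i h1 h2)
        (H.wprec_trans k _ (z j) _ (hzwide j hj) hw (zle j (8 * k - 1) (by omega) (by omega)))
    have nplus' : ∀ i < 2 * k, ∀ j, 7 * k ≤ j → j < 8 * k → ¬ wprec k l r (z j) (g2 i) := by
      intro i hi j h1 h2 hw
      apply nhigh i hi
      exact H.wprec_trans k _ (z j) _ (hzwide j h2) (zle (7 * k) j h1 h2) hw
    apply hT
    have hl5 := H.l_mono _ _ (SM.le b2.sm (k - 1 + (k - 1)) (2 * k - 1) (by omega) (by omega))
    have hr5 := H.r_mono _ _ (SM.le b2.sm 0 (k - 1) (by omega) (by omega))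
    refine H.three k (fun i => g2 (k - 1 + i)) (fun j => z (7 * k + j)) ?_ ?_ ?_ ?_ ?_ ?_ ?_
    · intro i j hij hj
      exact b2.sm _ _ (by omega) (by omega)
    · intro i j hij hj
      exact hz _ _ (by omega) (by omega)
    · intro i hi j hj
      exact ⟨fun hw => nplus (k - 1 + i) (by omega) (by omega) (7 * k + j) (by omega)
        (Clk.wprec_of_le k _ _ hw), fun hw => nplus' (k - 1 + i) (by omega) (7 * k + j) (by omega)
        (by omega) (Clk.wprec_of_le k _ _ hw)⟩
    · show l (z (7 * k + (k - 1))) + k < r (g2 (k - 1 + 0))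
      have h1 := nplus (k - 1 + 0) (by omega) (by omega) (7 * k + (k - 1)) (by omega)
      by_contra hcon
      exact h1 (Or.inr (Or.inr (by omega)))
    · show l (g2 (k - 1 + (k - 1))) + k < r (z (7 * k + 0))
      have h1 := nplus' (k - 1 + (k - 1)) (by omega) (7 * k + 0) (by omega) (by omega)
      by_contra hcon
      exact h1 (Or.inr (Or.inr (by omega)))
    · show l (g2 (k - 1 + (k - 1))) + k < r (g2 (k - 1 + 0))
      rw [Nat.add_zero]
      omega
    · show l (z (7 * k + (k - 1))) + k < r (z (7 * k + 0))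
      have h1 := hlz (7 * k + (k - 1)) (by omega)
      have h2 := hrz (7 * k + 0) (by omega)
      omega
  · -- minus case
    have nminus : ∀ i, i < k → ∀ j < 8 * k, ¬ wprec k l r (z j) (g2 i) := by
      intro i hi j hj hw
      apply hcase
      exact H.wprec_trans k _ (z j) _ (hzwide j hj) (zle 0 j (by omega) hj)
        (H.wprec_trans k _ (g2 i) _ (g2w i (by omega)) hw (g2le i (k - 1) (by omega) (by omega)))
    have nminus' : ∀ i < 2 * k, ∀ j < k, ¬ wprec k l r (g2 i) (z j) := by
      intro i hi j hj hw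
      apply nlow i hi
      exact H.wprec_trans k _ (z j) _ (hzwide j (by omega)) hw
        (zle j (k - 1) (by omega) (by omega))
    apply hT
    have hl5 := H.l_mono _ _ (SM.le b2.sm (k - 1) (2 * k - 1) (by omega) (by omega))
    refine H.three k g2 z ?_ ?_ ?_ ?_ ?_ ?_ ?_
    · intro i j hij hj
      exact b2.sm _ _ hij (by omega)
    · intro i j hij hj
      exact hz _ _ hij (by omega)
    · intro i hi j hj
      exact ⟨fun hw => nminus' i (by omega) j hj (Clk.wprec_of_le k _ _ hw),
        fun hw => nminus i hi j (by omega) (Clk.wprec_of_le k _ _ hw)⟩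
    · have h1 := nminus' 0 (by omega) (k - 1) (by omega)
      by_contra hcon
      exact h1 (Or.inr (Or.inr (by omega)))
    · have h1 := nminus (k - 1) (by omega) 0 (by omega)
      by_contra hcon
      exact h1 (Or.inr (Or.inr (by omega)))
    · omega
    · have h1 := hlz (k - 1) (by omega)
      omega

end Pool.Agent.MP763071.Three
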