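import Pool.Agent.Lib.MP_763071_co.KK.Backbone

/-!
# MP_763071_co : the clock of a maximum chain

`ch 1 < … < ch h` is a chain of maximum size, `l z` is the largest `i` with `ch i ≤ z` (`0` if there
is none) and `r z` the smallest `i` with `z ≤ ch i` (`h + 1` if there is none).
-/

set_option autoImplicit false

namespace Pool.Agent.MP763071.Three

open Pool.Agent.MP763071.KK.BackboneAux

/-- the clock of a maximum chain -/
structure Clk (P : Type) [PartialOrder P] (h : ℕ) (ch : ℕ → P) (l r : P → ℕ) : Prop where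
  chlt : ∀ i j, 1 ≤ i → i < j → j ≤ h → ch i < ch j
  l_le : ∀ x, l x ≤ h
  r_pos : ∀ x, 1 ≤ r x
  r_le : ∀ x, r x ≤ h + 1
  l_iff : ∀ x i, 1 ≤ i → i ≤ h → (ch i ≤ x ↔ i ≤ l x)
  r_iff : ∀ x i, 1 ≤ i → i ≤ h → (x ≤ ch i ↔ r x ≤ i)
  max : ∀ (n : ℕ) (f : ℕ → P), SM n f → n ≤ h

theorem exists_clk (P : Type) [Fintype P] [PartialOrder P] [Nonempty P] :
    ∃ (h : ℕ) (ch : ℕ → P) (l r : P → ℕ), Clk P h ch l r := by
  classical
  obtain ⟨h, ⟨f, hf⟩, hmax⟩ := exists_max P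
  set ch : ℕ → P := fun i => f (i - 1) with hch
  have chlt : ∀ i j, 1 ≤ i → i < j → j ≤ h → ch i < ch j := by
    intro i j h1 h2 h3
    exact hf (i - 1) (j - 1) (by omega) (by omega)
  have chle : ∀ i j, 1 ≤ i → i ≤ j → j ≤ h → ch i ≤ ch j := by
    intro i j h1 h2 h3
    rcases Nat.eq_or_lt_of_le h2 with h4 | h4
    · rw [h4]
    · exact (chlt i j h1 h4 h3).le
  let l : P → ℕ := fun x => Nat.findGreatest (fun i => 1 ≤ i ∧ ch i ≤ x) h
  have l_le : ∀ x, l x ≤ h := fun x => Nat.findGreatest_le h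
  have l_iff : ∀ x i, 1 ≤ i → i ≤ h → (ch i ≤ x ↔ i ≤ l x) := by
    intro x i h1 h2
    constructor
    · intro h3
      exact Nat.le_findGreatest h2 ⟨h1, h3⟩
    · intro h3
      have h4 : l x ≠ 0 := by omega
      have h5 : 1 ≤ l x ∧ ch (l x) ≤ x :=
        Nat.findGreatest_of_ne_zero (P := fun i => 1 ≤ i ∧ ch i ≤ x) (n := h) (m := l x) rfl h4
      exact le_trans (chle i (l x) h1 h3 (l_le x)) h5.2
  have hex : ∀ x : P, ∃ i, i = h + 1 ∨ (1 ≤ i ∧ i ≤ h ∧ x ≤ ch i) := fun x => ⟨h + 1, Or.inl rfl⟩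
  let r : P → ℕ := fun x => Nat.find (hex x)
  have r_spec : ∀ x, r x = h + 1 ∨ (1 ≤ r x ∧ r x ≤ h ∧ x ≤ ch (r x)) := fun x =>
    Nat.find_spec (hex x)
  have r_pos : ∀ x, 1 ≤ r x := by
    intro x
    rcases r_spec x with h1 | h1
    · omega
    · exact h1.1
  have r_le : ∀ x, r x ≤ h + 1 := fun x => Nat.find_min' (hex x) (Or.inl rfl)
  have r_iff : ∀ x i, 1 ≤ i → i ≤ h → (x ≤ ch i ↔ r x ≤ i) := by
    intro x i h1 h2
    constructor
    · intro h3
      exact Nat.find_min' (hex x) (Or.inr ⟨h1, h2, h3⟩)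
    · intro h3
      rcases r_spec x with h4 | h4
      · omega
      · exact le_trans h4.2.2 (chle (r x) i h4.1 h3 h2)
  exact ⟨h, ch, l, r, ⟨chlt, l_le, r_pos, r_le, l_iff, r_iff, hmax⟩⟩

variable {P : Type} [PartialOrder P] {h : ℕ} {ch : ℕ → P} {l r : P → ℕ}

namespace Clk

theorem chle (H : Clk P h ch l r) (i j : ℕ) (h1 : 1 ≤ i) (h2 : i ≤ j) (h3 : j ≤ h) :
    ch i ≤ ch j := by
  rcases Nat.eq_or_lt_of_le h2 with h4 | h4
  · rw [h4]
  · exact (H.chlt i j h1 h4 h3).le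

theorem ch_l (H : Clk P h ch l r) (x : P) (h1 : 1 ≤ l x) : ch (l x) ≤ x :=
  (H.l_iff x (l x) h1 (H.l_le x)).2 le_rfl

theorem ch_r (H : Clk P h ch l r) (x : P) (h1 : r x ≤ h) : x ≤ ch (r x) :=
  (H.r_iff x (r x) (H.r_pos x) h1).2 le_rfl

theorem l_mono (H : Clk P h ch l r) (x y : P) (hxy : x ≤ y) : l x ≤ l y := by
  rcases Nat.eq_zero_or_pos (l x) with h1 | h1
  · omega
  · exact (H.l_iff y (l x) h1 (H.l_le x)).1 ((H.ch_l x h1).trans hxy)

theorem r_mono (H : Clk P h ch l r) (x y : P) (hxy : x ≤ y) : r x ≤ r y := by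
  rcases Nat.lt_or_ge h (r y) with h1 | h1
  · have := H.r_le x; omega
  · exact (H.r_iff x (r y) (H.r_pos y) h1).1 (hxy.trans (H.ch_r y h1))

/-- an element of the clock strictly inside the window of `x` is incomparable to `x` -/
theorem win (H : Clk P h ch l r) (x : P) (t : ℕ) (h1 : l x < t) (h2 : t < r x) :
    ¬ ch t ≤ x ∧ ¬ x ≤ ch t := by
  have h3 := H.r_le x
  refine ⟨fun h4 => ?_, fun h4 => ?_⟩
  · have := (H.l_iff x t (by omega) (by omega)).1 h4; omega
  · have := (H.r_iff x t (by omega) (by omega)).1 h4; omega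

/-- replacement of a part of the maximum chain -/
theorem repl (H : Clk P h ch l r) (L : ℕ) (d : ℕ → P) (hd : SM L d) (hL : 1 ≤ L) (a b : ℕ)
    (ha : a ≤ h) (hb : 1 ≤ b) (hb' : b ≤ h + 1) (h1 : 1 ≤ a → ch a < d 0)
    (h2 : b ≤ h → d (L - 1) < ch b) : a + L + 1 ≤ b := by
  have dle : ∀ i j, i ≤ j → j < L → d i ≤ d j := by
    intro i j h1 h2
    rcases Nat.eq_or_lt_of_le h1 with h3 | h3
    · rw [h3]
    · exact (hd i j h3 h2).le
  have s1 : SM a (fun t => ch (t + 1)) := fun i j hij hj =>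
    H.chlt (i + 1) (j + 1) (by omega) (by omega) (by omega)
  have s3 : SM (h + 1 - b) (fun t => ch (t + b)) := fun i j hij hj =>
    H.chlt (i + b) (j + b) (by omega) (by omega) (by omega)
  have s12 := s1.concat hd (fun i hi j hj => by
    have h3 : ch (i + 1) ≤ ch a := H.chle _ _ (by omega) (by omega) ha
    exact (h3.trans_lt (h1 (by omega))).trans_le (dle 0 j (Nat.zero_le _) hj))
  have s123 := s12.concat s3 (fun i hi j hj => by
    have h4 : ch b ≤ ch (j + b) := H.chle _ _ hb (by omega) (by omega)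
    have h5 : d (L - 1) < ch (j + b) := (h2 (by omega)).trans_le h4
    have h6 : ∀ m < L, d m < ch (j + b) := fun m hm =>
      (dle m (L - 1) (by omega) (by omega)).trans_lt h5
    by_cases h3 : i < a
    · rw [if_pos h3]
      have h7 : ch (i + 1) ≤ ch a := H.chle _ _ (by omega) (by omega) ha
      exact (h7.trans_lt (h1 (by omega))).trans (h6 0 (by omega))
    · rw [if_neg h3]
      exact h6 (i - a) (by omega))
  have := H.max _ _ s123
  omega

end Clk

/-- three pairwise incomparable chains with `k` elements -/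
def T3 (P : Type) [PartialOrder P] (k : ℕ) : Prop :=
  ∃ a b c : Fin k → P, StrictMono a ∧ StrictMono b ∧ StrictMono c ∧
    (∀ i j, ¬ a i ≤ b j ∧ ¬ b j ≤ a i) ∧ (∀ i j, ¬ a i ≤ c j ∧ ¬ c j ≤ a i) ∧
    ∀ i j, ¬ b i ≤ c j ∧ ¬ c j ≤ b i

/-- two incomparable chains with a common window of the clock give `k + k + k` -/
theorem Clk.three (H : Clk P h ch l r) (k : ℕ) (x z : ℕ → P) (hx : SM k x) (hz : SM k z)
    (hxz : ∀ i < k, ∀ j < k, ¬ x i ≤ z j ∧ ¬ z j ≤ x i)
    (h1 : l (z (k - 1)) + k < r (x 0)) (h2 : l (x (k - 1)) + k < r (z 0))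
    (h3 : l (x (k - 1)) + k < r (x 0)) (h4 : l (z (k - 1)) + k < r (z 0)) : T3 P k := by
  have le_of : ∀ (f : ℕ → P), SM k f → ∀ i j, i ≤ j → j < k → f i ≤ f j := by
    intro f hf i j h1 h2
    rcases Nat.eq_or_lt_of_le h1 with h3 | h3
    · rw [h3]
    · exact (hf i j h3 h2).le
  obtain ⟨m, hm1, hm2, hm3, hm4⟩ : ∃ m, l (x (k - 1)) ≤ m ∧ l (z (k - 1)) ≤ m ∧
      m + k < r (x 0) ∧ m + k < r (z 0) := by
    rcases le_total (l (x (k - 1))) (l (z (k - 1))) with h5 | h5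
    · exact ⟨l (z (k - 1)), h5, le_rfl, h1, h4⟩
    · exact ⟨l (x (k - 1)), le_rfl, h5, h3, h2⟩
  have hrx := H.r_le (x 0)
  refine ⟨fun i => x i, fun i => z i, fun i => ch (m + 1 + i), ?_, ?_, ?_, ?_, ?_, ?_⟩
  · intro i j hij
    exact hx i j hij j.2
  · intro i j hij
    exact hz i j hij j.2
  · intro i j hij
    have h5 : (i : ℕ) < j := hij
    have := j.2
    exact H.chlt _ _ (by omega) (by omega) (by omega)
  · intro i j
    exact hxz i i.2 j j.2
  · intro i j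
    have hi := i.2
    have hj := j.2
    have h5 := H.l_mono _ _ (le_of x hx i (k - 1) (by omega) (by omega))
    have h6 := H.r_mono _ _ (le_of x hx 0 i (by omega) hi)
    have h7 := H.win (x i) (m + 1 + j) (by omega) (by omega)
    exact ⟨h7.2, h7.1⟩
  · intro i j
    have hi := i.2
    have hj := j.2
    have h5 := H.l_mono _ _ (le_of z hz i (k - 1) (by omega) (by omega))
    have h6 := H.r_mono _ _ (le_of z hz 0 i (by omega) hi)
    have h7 := H.win (z i) (m + 1 + j) (by omega) (by omega)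
    exact ⟨h7.2, h7.1⟩

end Pool.Agent.MP763071.Three
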