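import Pool.Agent.Lib.MP_763071_co.Three.Width
import Pool.Agent.Lib.MP_763071_co.Two.Final

/-!
# MP_763071_co : posets without `k + k + k`

Coarse theorem of Dilworth: a finite poset without `k + k + k` has two chains which meet every
interval of height at least `41 k`.
-/

set_option autoImplicit false

namespace Pool.Agent.MP763071.Three

open Pool.Agent.MP763071.KK Pool.Agent.MP763071.KK.BackboneAux

section

variable {P : Type} [PartialOrder P] {h : ℕ} {ch : ℕ → P} {l r : P → ℕ}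

/-- the elements of the blocks -/
def Dof (k : ℕ) (s : List (ℕ → P)) : Set P := {d | ∃ b ∈ s, ∃ i < 2 * k, d = b i}

theorem dset_of (H : Clk P h ch l r) {k : ℕ} (hk : 1 ≤ k) (s : List (ℕ → P))
    (hs : BSeq k l r s) : Dset k l r (Dof k s) := by
  constructor
  · rintro d ⟨b, hb, i, hi, rfl⟩
    exact (hs.1 b hb).wide H i hi
  · rintro d ⟨b, hb, i, hi, rfl⟩ d' ⟨b', hb', j, hj, rfl⟩ hne
    by_cases hbb : b = b'
    · subst hbb
      rcases lt_trichotomy i j with h1 | h1 | h1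
      · exact Or.inl (Or.inl ((hs.1 b hb).sm i j h1 hj))
      · exact absurd (by rw [h1]) hne
      · exact Or.inr (Or.inl ((hs.1 b hb).sm j i h1 hi))
    · have h1 : s.Pairwise (fun b b' => prec k l r (b (2 * k - 1)) (b' 0) ∨
          prec k l r (b' (2 * k - 1)) (b 0)) := hs.2.imp (fun h => Or.inl h)
      have : Std.Symm (fun b b' : ℕ → P => prec k l r (b (2 * k - 1)) (b' 0) ∨
          prec k l r (b' (2 * k - 1)) (b 0)) := ⟨fun x y h => h.symm⟩
      have h2 := h1.forall hb hb' hbb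
      have key : ∀ b ∈ s, ∀ b' ∈ s, ∀ i < 2 * k, ∀ j < 2 * k,
          prec k l r (b (2 * k - 1)) (b' 0) → prec k l r (b i) (b' j) := by
        intro b hb b' hb' i hi j hj h3
        have w1 := (hs.1 b hb).wide H (2 * k - 1) (by omega)
        have w2 := (hs.1 b' hb').wide H 0 (by omega)
        exact H.prec_of_prec_wprec k _ (b' 0) _ w2 (H.prec_of_wprec_prec k _ (b (2 * k - 1)) _ w1
          (Clk.wprec_of_le k _ _ (SM.le (hs.1 b hb).sm i (2 * k - 1) (by omega) (by omega))) h3)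
          (Clk.wprec_of_le k _ _ (SM.le (hs.1 b' hb').sm 0 j (by omega) hj))
      rcases h2 with h2 | h2
      · exact Or.inl (key b hb b' hb' i hi j hj h2)
      · exact Or.inr (key b' hb' b hb j hj i hi h2)

/-- a chain of `20 k` elements with a nonempty common window contains an element of a block in its
interval -/
theorem miss (H : Clk P h ch l r) {k : ℕ} (hk : 1 ≤ k) (hT : ¬ T3 P k) (s : List (ℕ → P))
    (hs : BSeq k l r s) (hmax : ∀ s' : List (ℕ → P), BSeq k l r s' → s'.length ≤ s.length)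
    (x : ℕ → P) (hx : SM (20 * k) x) (hxw : l (x (20 * k - 1)) < r (x 0)) :
    ∃ d ∈ Dof k s, x 0 ≤ d ∧ d ≤ x (20 * k - 1) := by
  by_cases h1 : l (x (8 * k - 1)) + 1 + 2 * k ≤ r (x 0)
  · obtain ⟨b, hb, i, hi, h2, h3⟩ := claim1 H hk hT s hs hmax x
      (fun i j hij hj => hx i j hij (by omega)) h1
    exact ⟨b i, ⟨b, hb, i, hi, rfl⟩, h2, h3.trans (SM.le hx _ _ (by omega) (by omega))⟩
  by_cases h2 : l (x (20 * k - 1)) + 1 + 2 * k ≤ r (x (12 * k))
  · have e1 : 12 * k + (8 * k - 1) = 20 * k - 1 := by omega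
    obtain ⟨b, hb, i, hi, h3, h4⟩ := claim1 H hk hT s hs hmax (fun j => x (12 * k + j))
      (fun i j hij hj => hx _ _ (by omega) (by omega)) (by
        show l (x (12 * k + (8 * k - 1))) + 1 + 2 * k ≤ r (x (12 * k + 0))
        rw [e1, Nat.add_zero]
        exact h2)
    have h3' : x (12 * k + 0) ≤ b i := h3
    have h4' : b i ≤ x (12 * k + (8 * k - 1)) := h4
    rw [e1] at h4'
    exact ⟨b i, ⟨b, hb, i, hi, rfl⟩, (SM.le hx 0 (12 * k + 0) (by omega) (by omega)).trans h3', h4'⟩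
  exfalso
  have h3 := H.repl (4 * k) (fun i => x (8 * k + i)) (fun i j hij hj => hx _ _ (by omega) (by omega))
    (by omega) (l (x (8 * k - 1))) (r (x (12 * k))) (H.l_le _) (H.r_pos _) (H.r_le _)
    (fun h4 => (H.ch_l _ h4).trans_lt (hx _ _ (by omega) (by omega)))
    (fun h4 => (hx (8 * k + (4 * k - 1)) (12 * k) (by omega) (by omega)).trans_le (H.ch_r _ h4))
  omega

end

/-- the coarse theorem of Dilworth for posets without `k + k + k` -/
theorem cd2 (P : Type) [Fintype P] [PartialOrder P] (k : ℕ) (hk : 1 ≤ k) (hT : ¬ T3 P k) :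
    ∃ C₁ C₂ : Set P, IsChain (· ≤ ·) C₁ ∧ IsChain (· ≤ ·) C₂ ∧
      ∀ y : ℕ → P, SM (41 * k) y → ∃ w ∈ C₁ ∪ C₂, y 0 ≤ w ∧ w ≤ y (41 * k - 1) := by
  classical
  rcases isEmpty_or_nonempty P with hP | hP
  · exact ⟨∅, ∅, fun x => isEmptyElim x, fun x => isEmptyElim x, fun y _ => isEmptyElim (y 0)⟩
  obtain ⟨h, ch, l, r, H⟩ := exists_clk P
  obtain ⟨s, hs, hmax⟩ := exists_longest H hk
  have hD := dset_of H hk s hs
  obtain ⟨C₁, C₂, hC1, hC2, hW⟩ := hD.twoch H
  refine ⟨C₁, C₂, hC1, hC2, fun y hy => ?_⟩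
  by_contra hno
  have hnoW : ∀ w ∈ Wset k h ch l r (Dof k s), y 0 ≤ w → ¬ w ≤ y (41 * k - 1) :=
    fun w hw h1 h2 => hno ⟨w, hW hw, h1, h2⟩
  have hrun := hD.run H (r (y 0)) (l (y (41 * k - 1))) (by
    intro t h1 h2
    by_contra hR
    have h3 := H.r_pos (y 0)
    have h4 := H.l_le (y (41 * k - 1))
    exact hnoW (ch t) (Or.inr ⟨t, by omega, by omega, hR, rfl⟩)
      ((H.r_iff _ t (by omega) (by omega)).2 h1) ((H.l_iff _ t (by omega) (by omega)).2 h2))
  by_cases h1 : l (y (20 * k - 1)) < r (y 0)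
  · obtain ⟨d, hd, h2, h3⟩ := miss H hk hT s hs hmax y (fun i j hij hj => hy i j hij (by omega)) h1
    exact hnoW d (Or.inl hd) h2 (h3.trans (SM.le hy _ _ (by omega) (by omega)))
  by_cases h2 : l (y (41 * k - 1)) < r (y (21 * k))
  · have e1 : 21 * k + (20 * k - 1) = 41 * k - 1 := by omega
    obtain ⟨d, hd, h3, h4⟩ := miss H hk hT s hs hmax (fun j => y (21 * k + j))
      (fun i j hij hj => hy _ _ (by omega) (by omega)) (by
        show l (y (21 * k + (20 * k - 1))) < r (y (21 * k + 0))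
        rw [e1, Nat.add_zero]
        exact h2)
    have h3' : y (21 * k + 0) ≤ d := h3
    have h4' : d ≤ y (21 * k + (20 * k - 1)) := h4
    rw [e1] at h4'
    exact hnoW d (Or.inl hd) ((SM.le hy 0 (21 * k + 0) (by omega) (by omega)).trans h3') h4'
  have hl1 := H.l_le (y (20 * k - 1))
  have hl2 := H.l_le (y (41 * k - 1))
  have hr1 := H.r_pos (y 0)
  have hr2 := H.r_pos (y (21 * k))
  have h3 := H.repl (k + 2) (fun i => y (20 * k - 1 + i))
    (fun i j hij hj => hy _ _ (by omega) (by omega))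
    (by omega) (r (y 0) - 1) (l (y (41 * k - 1)) + 1) (by omega) (by omega) (by omega)
    (fun h4 => (H.chlt (r (y 0) - 1) (r (y 0)) h4 (by omega) (by omega)).trans_le
      ((H.l_iff _ _ hr1 (by omega)).2 (by
        show r (y 0) ≤ l (y (20 * k - 1 + 0))
        rw [Nat.add_zero]
        omega)))
    (fun h4 => by
      show y (20 * k - 1 + (k + 2 - 1)) < ch (l (y (41 * k - 1)) + 1)
      have e1 : 20 * k - 1 + (k + 2 - 1) = 21 * k := by omega
      rw [e1]
      exact ((H.r_iff _ _ (by omega) hl2).2 (by omega)).trans_lt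
        (H.chlt _ _ (by omega) (Nat.lt_succ_self _) h4))
  omega

/-- posets without `k + k + k`, without `S_d` and with a cover graph without `K_n` minor have bounded
dimension -/
theorem noThreeK (n d k : ℕ) : ∃ d0 : ℕ, ∀ (P : Type) [Fintype P] [PartialOrder P],
    ¬ T3 P k → ¬ Two.HasS P d → ¬ HasMinor (CG P) n → Two.Rz P d0 := by
  rcases Nat.eq_zero_or_pos k with hk | hk
  · subst hk
    refine ⟨0, fun P _ _ hT => ?_⟩
    exact absurd ⟨Fin.elim0, Fin.elim0, Fin.elim0, fun i => i.elim0, fun i => i.elim0,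
      fun i => i.elim0, fun i => i.elim0, fun i => i.elim0, fun i => i.elim0⟩ hT
  obtain ⟨d0, h0⟩ := Two.twoChains n d (41 * k)
  refine ⟨d0, fun P _ _ hT hS hM => ?_⟩
  obtain ⟨C₁, C₂, h1, h2, h3⟩ := cd2 P k hk hT
  refine h0 P C₁ C₂ h1 h2 (fun z hz => ?_) hS hM
  obtain ⟨w, hw, h4, h5⟩ := h3 (fun i => if hi : i < 41 * k + 1 then z ⟨i, hi⟩ else z 0) (by
    intro i j hij hj
    show (if hi : i < 41 * k + 1 then z ⟨i, hi⟩ else z 0) <
      (if hj : j < 41 * k + 1 then z ⟨j, hj⟩ else z 0)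
    rw [dif_pos (by omega), dif_pos (by omega)]
    exact hz (by simpa using hij))
  refine ⟨w, hw, ?_, ?_⟩
  · have h6 : (if hi : 0 < 41 * k + 1 then z ⟨0, hi⟩ else z 0) ≤ w := h4
    rw [dif_pos (by omega)] at h6
    exact h6
  · have h6 : w ≤ (if hi : 41 * k - 1 < 41 * k + 1 then z ⟨41 * k - 1, hi⟩ else z 0) := h5
    rw [dif_pos (by omega)] at h6
    exact h6.trans (hz.monotone (Fin.le_last _))

end Pool.Agent.MP763071.Three
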