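import Pool.Agent.Lib.MP_763071_co.Three.Block
import Pool.Agent.Lib.MP_763071_co.Three.Dil

/-!
# MP_763071_co : the kept part of the clock together with the blocks has width two

`D` is a set of elements with wide windows, linearly ordered by `prec`.  The position `t` of the clock is
removed (`Rm t`) if it lies in the common window of two incomparable elements of `D`.
-/

set_option autoImplicit false

namespace Pool.Agent.MP763071.Three

open Pool.Agent.MP763071.KK.BackboneAux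

variable {P : Type} [PartialOrder P] {h : ℕ} {ch : ℕ → P} {l r : P → ℕ}

/-- a set of wide elements, linearly ordered by `prec` -/
structure Dset (k : ℕ) (l r : P → ℕ) (D : Set P) : Prop where
  wd : ∀ d ∈ D, wide k l r d
  tot : ∀ d ∈ D, ∀ d' ∈ D, d ≠ d' → prec k l r d d' ∨ prec k l r d' d

/-- removed positions -/
def Rm (k : ℕ) (l r : P → ℕ) (D : Set P) (t : ℕ) : Prop :=
  ∃ d ∈ D, ∃ d' ∈ D, prec k l r d d' ∧ ¬ d < d' ∧ l d' < t ∧ t < r d

/-- the kept part of the clock together with `D` -/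
def Wset (k h : ℕ) (ch : ℕ → P) (l r : P → ℕ) (D : Set P) : Set P :=
  {x | x ∈ D ∨ ∃ t, 1 ≤ t ∧ t ≤ h ∧ ¬ Rm k l r D t ∧ x = ch t}

namespace Dset

variable {k : ℕ} {D : Set P}

/-- consecutive pairs -/
theorem consec [Fintype P] (H : Clk P h ch l r) (hD : Dset k l r D) (n : ℕ) :
    ∀ d ∈ D, ∀ d' ∈ D, prec k l r d d' → ¬ d < d' →
      ({e | e ∈ D ∧ prec k l r d e ∧ prec k l r e d'} : Set P).ncard ≤ n →
      ∃ e ∈ D, ∃ e' ∈ D, prec k l r e e' ∧ ¬ e < e' ∧ l e' ≤ l d' ∧ r d ≤ r e ∧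
        ∀ f ∈ D, prec k l r e f → ¬ prec k l r f e' := by
  classical
  induction n with
  | zero =>
    intro d hd d' hd' h1 h2 h3
    refine ⟨d, hd, d', hd', h1, h2, le_rfl, le_rfl, fun f hf h4 h5 => ?_⟩
    have h6 : ({e | e ∈ D ∧ prec k l r d e ∧ prec k l r e d'} : Set P) = ∅ := by
      rw [← Set.ncard_eq_zero (Set.toFinite _)]
      omega
    have h7 : f ∈ ({e | e ∈ D ∧ prec k l r d e ∧ prec k l r e d'} : Set P) := ⟨hf, h4, h5⟩
    rw [h6] at h7
    exact h7
  | succ n ih =>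
    intro d hd d' hd' h1 h2 h3
    by_cases hcon : ∀ f ∈ D, prec k l r d f → ¬ prec k l r f d'
    · exact ⟨d, hd, d', hd', h1, h2, le_rfl, le_rfl, hcon⟩
    push Not at hcon
    obtain ⟨f, hf, h4, h5⟩ := hcon
    have hfmem : f ∈ ({e | e ∈ D ∧ prec k l r d e ∧ prec k l r e d'} : Set P) := ⟨hf, h4, h5⟩
    by_cases h6 : d < f
    · have h7 : ¬ f < d' := fun h7 => h2 (h6.trans h7)
      have h8 : ({e | e ∈ D ∧ prec k l r f e ∧ prec k l r e d'} : Set P) ⊂
          {e | e ∈ D ∧ prec k l r d e ∧ prec k l r e d'} := by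
        rw [Set.ssubset_iff_of_subset]
        · exact ⟨f, hfmem, fun h9 => Clk.prec_irrefl k f (hD.wd f hf) h9.2.1⟩
        · rintro e ⟨he, h9, h10⟩
          exact ⟨he, H.prec_trans k d f e (hD.wd f hf) h4 h9, h10⟩
      have h9 := Set.ncard_lt_ncard h8 (Set.toFinite _)
      obtain ⟨e, he, e', he', q1, q2, q3, q4, q5⟩ := ih f hf d' hd' h5 h7 (by omega)
      exact ⟨e, he, e', he', q1, q2, q3, (H.prec_r k d f (hD.wd f hf) h4).trans q4, q5⟩
    · have h8 : ({e | e ∈ D ∧ prec k l r d e ∧ prec k l r e f} : Set P) ⊂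
          {e | e ∈ D ∧ prec k l r d e ∧ prec k l r e d'} := by
        rw [Set.ssubset_iff_of_subset]
        · exact ⟨f, hfmem, fun h9 => Clk.prec_irrefl k f (hD.wd f hf) h9.2.2⟩
        · rintro e ⟨he, h9, h10⟩
          exact ⟨he, h9, H.prec_trans k e f d' (hD.wd f hf) h10 h5⟩
      have h9 := Set.ncard_lt_ncard h8 (Set.toFinite _)
      obtain ⟨e, he, e', he', q1, q2, q3, q4, q5⟩ := ih d hd f hf h4 h6 (by omega)
      exact ⟨e, he, e', he', q1, q2, q3.trans (H.prec_l k f d' (hD.wd f hf) h5), q4, q5⟩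

/-- a run of removed positions has fewer than `k` elements -/
theorem run [Fintype P] (H : Clk P h ch l r) (hD : Dset k l r D) (a b : ℕ)
    (hrun : ∀ t, a ≤ t → t ≤ b → Rm k l r D t) : b + 2 ≤ a + k ∨ b < a := by
  by_contra hcon
  push Not at hcon
  obtain ⟨hcon1, hcon2⟩ := hcon
  obtain ⟨d, hd, d', hd', h1, h2, h3, h4⟩ := hrun a le_rfl hcon2
  obtain ⟨e, he, e', he', q1, q2, q3, q4, q5⟩ := hD.consec H _ d hd d' hd' h1 h2 le_rfl
  have hee : r e ≤ l e' + k := by
    rcases q1 with q1 | q1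
    · exact absurd q1 q2
    · exact q1
  obtain ⟨f, hf, f', hf', h5, h6, h7, h8⟩ := hrun (r e) (by omega) (by omega)
  obtain ⟨g, hg, g', hg', s1, s2, s3, s4, s5⟩ := hD.consec H _ f hf f' hf' h5 h6 le_rfl
  have hgg : r g ≤ l g' + k := by
    rcases s1 with s1 | s1
    · exact absurd s1 s2
    · exact s1
  -- e ≺ g
  have hne : e ≠ g := fun heq => by rw [← heq] at s4; omega
  have heg : prec k l r e g := by
    rcases hD.tot e he g hg hne with h9 | h9
    · exact h9
    · have := H.prec_r k g e (hD.wd e he) h9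
      omega
  -- e' ≼ g
  have hrg : r e' ≤ r g := by
    by_cases h9 : e' = g
    · rw [h9]
    · rcases hD.tot e' he' g hg h9 with h10 | h10
      · exact H.prec_r k e' g (hD.wd g hg) h10
      · exact absurd h10 (q5 g hg heg)
  have hw := hD.wd e' he'
  unfold wide at hw
  omega

/-- three elements of the set are never pairwise incomparable -/
theorem no3 (H : Clk P h ch l r) (hD : Dset k l r D) :
    ∀ x ∈ Wset k h ch l r D, ∀ y ∈ Wset k h ch l r D, ∀ z ∈ Wset k h ch l r D,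
      ¬ x ≤ y → ¬ y ≤ x → ¬ x ≤ z → ¬ z ≤ x → ¬ y ≤ z → ¬ z ≤ y → False := by
  -- all three in D, ordered
  have key3 : ∀ x ∈ D, ∀ y ∈ D, ∀ z ∈ D, prec k l r x y → prec k l r y z →
      ¬ x ≤ y → ¬ x ≤ z → ¬ y ≤ z → False := by
    intro x hx y hy z hz h1 h2 h3 h4 h5
    have e1 : r x ≤ l y + k := by
      rcases h1 with h1 | h1
      · exact absurd h1.le h3
      · exact h1
    have e2 : r y ≤ l z + k := by
      rcases h2 with h2 | h2
      · exact absurd h2.le h5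
      · exact h2
    have hw := hD.wd y hy
    unfold wide at hw
    have hlz := H.l_le z
    have hrx := H.r_pos x
    apply h4
    have h6 : x ≤ ch (r x) := H.ch_r x (by omega)
    have h7 : ch (r x) ≤ z := (H.l_iff z (r x) hrx (by omega)).2 (by omega)
    exact h6.trans h7
  -- all three in D
  have keyD : ∀ x ∈ D, ∀ y ∈ D, ∀ z ∈ D,
      ¬ x ≤ y → ¬ y ≤ x → ¬ x ≤ z → ¬ z ≤ x → ¬ y ≤ z → ¬ z ≤ y → False := by
    intro x hx y hy z hz h1 h2 h3 h4 h5 h6
    have nxy : x ≠ y := fun he => h1 (le_of_eq he)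
    have nxz : x ≠ z := fun he => h3 (le_of_eq he)
    have nyz : y ≠ z := fun he => h5 (le_of_eq he)
    rcases hD.tot x hx y hy nxy with a1 | a1
    · rcases hD.tot y hy z hz nyz with a2 | a2
      · exact key3 x hx y hy z hz a1 a2 h1 h3 h5
      · rcases hD.tot x hx z hz nxz with a3 | a3
        · exact key3 x hx z hz y hy a3 a2 h3 h1 h6
        · exact key3 z hz x hx y hy a3 a1 h4 h6 h1
    · rcases hD.tot x hx z hz nxz with a2 | a2
      · exact key3 y hy x hx z hz a1 a2 h2 h5 h3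
      · rcases hD.tot y hy z hz nyz with a3 | a3
        · exact key3 y hy z hz x hx a3 a2 h5 h2 h4
        · exact key3 z hz y hy x hx a3 a1 h6 h4 h2
  -- one on the clock, two in D
  have keyC : ∀ t, 1 ≤ t → t ≤ h → ¬ Rm k l r D t → ∀ x ∈ D, ∀ y ∈ D,
      ¬ x ≤ y → ¬ y ≤ x → ¬ x ≤ ch t → ¬ ch t ≤ x → ¬ y ≤ ch t → ¬ ch t ≤ y → False := by
    intro t ht1 ht2 hR x hx y hy h1 h2 h3 h4 h5 h6
    have i1 : t < r x := by
      by_contra hc
      exact h3 ((H.r_iff x t ht1 ht2).2 (by omega))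
    have i2 : l x < t := by
      by_contra hc
      exact h4 ((H.l_iff x t ht1 ht2).2 (by omega))
    have i3 : t < r y := by
      by_contra hc
      exact h5 ((H.r_iff y t ht1 ht2).2 (by omega))
    have i4 : l y < t := by
      by_contra hc
      exact h6 ((H.l_iff y t ht1 ht2).2 (by omega))
    have nxy : x ≠ y := fun he => h1 (le_of_eq he)
    rcases hD.tot x hx y hy nxy with a1 | a1
    · exact hR ⟨x, hx, y, hy, a1, fun h7 => h1 h7.le, i4, i1⟩
    · exact hR ⟨y, hy, x, hx, a1, fun h7 => h2 h7.le, i2, i3⟩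
  have keyCC : ∀ t t', 1 ≤ t → t ≤ h → 1 ≤ t' → t' ≤ h → ¬ ch t ≤ ch t' → ¬ ch t' ≤ ch t → False := by
    intro t t' h1 h2 h3 h4 h5 h6
    rcases le_total t t' with h7 | h7
    · exact h5 (H.chle t t' h1 h7 h4)
    · exact h6 (H.chle t' t h3 h7 h2)
  intro x hx y hy z hz h1 h2 h3 h4 h5 h6
  rcases hx with hx | ⟨t, ht1, ht2, ht3, rfl⟩
  · rcases hy with hy | ⟨t, ht1, ht2, ht3, rfl⟩
    · rcases hz with hz | ⟨t, ht1, ht2, ht3, rfl⟩
      · exact keyD x hx y hy z hz h1 h2 h3 h4 h5 h6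
      · exact keyC t ht1 ht2 ht3 x hx y hy h1 h2 h3 h4 h5 h6
    · rcases hz with hz | ⟨t', ht1', ht2', ht3', rfl⟩
      · exact keyC t ht1 ht2 ht3 x hx z hz h3 h4 h1 h2 h6 h5
      · exact keyCC t t' ht1 ht2 ht1' ht2' h5 h6
  · rcases hy with hy | ⟨t', ht1', ht2', ht3', rfl⟩
    · rcases hz with hz | ⟨t', ht1', ht2', ht3', rfl⟩
      · exact keyC t ht1 ht2 ht3 y hy z hz h5 h6 h2 h1 h4 h3
      · exact keyCC t t' ht1 ht2 ht1' ht2' h3 h4
    · exact keyCC t t' ht1 ht2 ht1' ht2' h1 h2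

/-- two chains covering the set -/
theorem twoch [Fintype P] (H : Clk P h ch l r) (hD : Dset k l r D) :
    ∃ C₁ C₂ : Set P, IsChain (· ≤ ·) C₁ ∧ IsChain (· ≤ ·) C₂ ∧ Wset k h ch l r D ⊆ C₁ ∪ C₂ := by
  classical
  obtain ⟨c, hc⟩ := DilAux.main ((Wset k h ch l r D).toFinset) 2 (by
    intro B hB hAC
    by_contra hcard
    push Not at hcard
    obtain ⟨x, hx, y, hy, z, hz, hxy, hxz, hyz⟩ := Finset.two_lt_card.1 hcard
    have hm : ∀ x ∈ B, x ∈ Wset k h ch l r D := fun x hx => by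
      have := hB hx
      rwa [Set.mem_toFinset] at this
    exact hD.no3 H x (hm x hx) y (hm y hy) z (hm z hz)
      (fun e => hxy (hAC x hx y hy e)) (fun e => hxy (hAC y hy x hx e).symm)
      (fun e => hxz (hAC x hx z hz e)) (fun e => hxz (hAC z hz x hx e).symm)
      (fun e => hyz (hAC y hy z hz e)) (fun e => hyz (hAC z hz y hy e).symm))
  have hm : ∀ x, x ∈ Wset k h ch l r D → x ∈ (Wset k h ch l r D).toFinset := fun x hx => by
    rwa [Set.mem_toFinset]
  refine ⟨{x | x ∈ Wset k h ch l r D ∧ c x = 0}, {x | x ∈ Wset k h ch l r D ∧ c x = 1}, ?_, ?_, ?_⟩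
  · intro x hx y hy _
    exact hc.2 x (hm x hx.1) y (hm y hy.1) (hx.2.trans hy.2.symm)
  · intro x hx y hy _
    exact hc.2 x (hm x hx.1) y (hm y hy.1) (hx.2.trans hy.2.symm)
  · intro x hx
    have h1 := hc.1 x (hm x hx)
    rcases Nat.lt_or_ge (c x) 1 with h2 | h2
    · exact Or.inl ⟨hx, by omega⟩
    · exact Or.inr ⟨hx, by omega⟩

end Dset

end Pool.Agent.MP763071.Three
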